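import Mathlib

namespace Pool.Agent.Results.MP_5d7181_co.Bounds

open SimpleGraph Finset Filter Topology

/-- the hypercube `Q_d` -/
def Q (d : ℕ) : SimpleGraph (Fin d → ZMod 2) where
  Adj x y := hammingDist x y = 1
  symm := ⟨fun x y h => (hammingDist_comm y x).trans h⟩
  loopless := ⟨fun _ h => by simp at h⟩

/-- odd independent sets -/
def OddInd {V : Type} (G : SimpleGraph V) (S : Set V) : Prop :=
  G.IsIndepSet S ∧ ∀ v ∉ S, G.neighborSet v ∩ S = ∅ ∨ Odd (G.neighborSet v ∩ S).ncard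

/-- the odd independence number -/
noncomputable def aod {V : Type} (G : SimpleGraph V) : ℕ := sSup {n | ∃ S, OddInd G S ∧ S.ncard = n}

abbrev e {d : ℕ} (i : Fin d) : Fin d → ZMod 2 := Pi.single i 1

lemma ee {d : ℕ} (v : Fin d → ZMod 2) (i : Fin d) : v + e i + e i = v := by
  ext j; by_cases h : j = i <;> simp [h, add_assoc, CharTwo.add_self_eq_zero]

lemma adj {d : ℕ} {x y : Fin d → ZMod 2} : (Q d).Adj x y ↔ ∃ i, x + e i = y := by
  have : ∀ a b : ZMod 2, a ≠ b ↔ a + 1 = b := by decide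
  simp only [Q, hammingDist, card_eq_one, Finset.ext_iff, mem_filter, mem_univ, true_and, mem_singleton]
  refine exists_congr fun i => ⟨fun h => funext fun j => ?_, ?_⟩
  · by_cases c : j = i
    · simpa [c] using (this _ _).1 ((h j).2 c)
    · simpa [c] using mt (h j).1 c
  · rintro rfl j; by_cases c : j = i <;> simp [c]

open Classical in
lemma nb {d : ℕ} (S : Set (Fin d → ZMod 2)) (v) :
    ((Q d).neighborSet v ∩ S).ncard = (univ.filter fun i => v + e i ∈ S).card := by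
  rw [← Set.ncard_coe_finset, ← Set.ncard_image_of_injective _ (f := fun i => v + e i)
    fun i j h => by by_contra c; simpa [c] using congrFun h i]
  congr 1; ext y; simp only [Set.mem_inter_iff, mem_neighborSet, adj, Set.mem_image]; aesop

lemma upper {d : ℕ} (hd : Even d) (h0 : 0 < d) {S} (h : OddInd (Q d) S) :
    2 * d * S.ncard ≤ (d - 1) * 2 ^ d := by
  classical
  have hi : ∀ v i, v ∈ S → v + e i ∉ S := fun v i a b =>
    h.1 a b ((adj.2 ⟨i, rfl⟩).ne) (adj.2 ⟨i, rfl⟩)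
  set U := univ.filter (· ∉ S)
  let a := fun v => (univ.filter fun i => v + e i ∉ S).card
  have ha : ∀ v, a v + (univ.filter fun i => v + e i ∈ S).card = d := fun v => by
    rw [add_comm]; simpa using card_filter_add_card_filter_not (s := univ) fun i => v + e i ∈ S
  have h1 : ∀ v ∉ S, 1 ≤ a v := fun v hv => by
    have := ha v; rw [← nb] at this
    rcases h.2 v hv with c | ⟨n, c⟩
    · simp [c] at this; omega
    · obtain ⟨m, hm⟩ := hd; omega
  have h2 : ∀ v i, v ∉ S → v + e i ∉ S → d + 1 ≤ a v + a (v + e i) := fun v i b c => by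
    rw [← card_union_add_card_inter]
    refine add_le_add ?_ (card_pos.2 ⟨i, by simp [ee, b, c]⟩)
    rw [eq_univ_of_forall (s := _ ∪ _) fun j => ?_]; · simp
    by_cases c : v + e j ∈ S
    · simpa [c, add_right_comm v (e i)] using hi _ i c
    · simp [c]
  let P := univ.filter fun p : _ × Fin d => p.1 ∉ S ∧ p.1 + e p.2 ∉ S
  have h3 : ∀ f : _ → ℝ, ∑ p ∈ P, f p.1 = ∑ v ∈ U, a v * f v := fun f => by
    simp only [P, U, a, sum_filter, Fintype.sum_prod_type, card_filter]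
    refine sum_congr rfl fun v _ => ?_
    by_cases c : v ∈ S <;> simp [c, sum_ite]
  have h4 : ∀ f : _ → ℝ, ∑ p ∈ P, f (p.1 + e p.2) = ∑ p ∈ P, f p.1 := fun f =>
    sum_nbij' (fun p => (p.1 + e p.2, p.2)) (fun p => (p.1 + e p.2, p.2)) (by simp +contextual [P, ee])
      (by simp +contextual [P, ee]) (by simp [ee]) (by simp [ee]) (by simp)
  have h5 : ∑ p ∈ P, (1 / a p.1 : ℝ) = U.card := by
    rw [h3 fun v => 1 / a v, card_eq_sum_ones, Nat.cast_sum]
    refine sum_congr rfl fun v hv => ?_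
    have : (0 : ℝ) < a v := by exact_mod_cast h1 v (by simpa [U] using hv)
    simp [this.ne']
  have hd' : (0 : ℝ) < d := by exact_mod_cast h0
  have h6 : 2 * (U.card : ℝ) ≤ (d + 1) / d * ∑ v ∈ U, (a v : ℝ) := by
    have := h3 fun _ => 1
    simp only [mul_one] at this
    rw [← this, two_mul, mul_sum, ← h5]
    nth_rw 2 [← h4 fun v => 1 / a v]
    rw [← sum_add_distrib]
    refine sum_le_sum fun p hp => ?_
    simp only [P, mem_filter, mem_univ, true_and] at hp
    have b1 : (1 : ℝ) ≤ a p.1 := by exact_mod_cast h1 _ hp.1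
    have b2 : (1 : ℝ) ≤ a (p.1 + e p.2) := by exact_mod_cast h1 _ hp.2
    have b3 : (d : ℝ) + 1 ≤ a p.1 + a (p.1 + e p.2) := by exact_mod_cast h2 _ _ hp.1 hp.2
    have b4 : (a p.1 : ℝ) ≤ d := by exact_mod_cast (ha _).le.trans' le_self_add
    have b5 : (a (p.1 + e p.2) : ℝ) ≤ d := by exact_mod_cast (ha _).le.trans' le_self_add
    rw [div_add_div _ _ (by positivity) (by positivity), mul_one (_ / _), div_le_div_iff₀ (by positivity) hd']
    nlinarith [mul_nonneg (sub_nonneg.2 b1) (sub_nonneg.2 b5), mul_nonneg (sub_nonneg.2 b2) (sub_nonneg.2 b4),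
      mul_nonneg (sub_nonneg.2 b1) (sub_nonneg.2 b2), mul_nonneg (sub_nonneg.2 b4) (sub_nonneg.2 b5)]
  have h7 : ∑ v ∈ U, (univ.filter fun i => v + e i ∈ S).card = S.ncard * d := by
    rw [← card_sigma, Set.ncard_eq_toFinset_card']
    refine Eq.trans ?_ (by simp : (S.toFinset ×ˢ (univ : Finset (Fin d))).card = _)
    exact card_nbij' (fun p => (p.1 + e p.2, p.2)) (fun p => ⟨p.1 + e p.2, p.2⟩)
      (by simp +contextual [Set.MapsTo]) (by simp +contextual [Set.MapsTo, U, ee, hi])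
      (by simp [Set.LeftInvOn, ee]) (by simp [Set.RightInvOn, Set.LeftInvOn, ee])
  have h8 : ∑ v ∈ U, a v + S.ncard * d = U.card * d := by
    rw [← h7, ← sum_add_distrib]; simp [ha]
  have h9 : S.ncard + U.card = 2 ^ d := by
    simpa [Set.ncard_eq_toFinset_card', Set.toFinset] using
      card_filter_add_card_filter_not (s := univ) (· ∈ S)
  have : 2 * (d : ℝ) * S.ncard ≤ (d - 1) * 2 ^ d := by
    have h8 := congrArg (Nat.cast (R := ℝ)) h8; have h9 := congrArg (Nat.cast (R := ℝ)) h9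
    push_cast at h8 h9
    rw [eq_sub_of_add_eq h8, ← sub_mul, mul_comm _ (d : ℝ), ← mul_assoc, div_mul_cancel₀ _ hd'.ne'] at h6
    rw [← h9]; linarith
  exact_mod_cast (by simpa [Nat.cast_sub h0] : ((2 * d * S.ncard : ℕ) : ℝ) ≤ ((d - 1) * 2 ^ d : ℕ))

lemma lower {d k : ℕ} (hd : Even d) (hk : 0 < k) (h : 2 ^ k ≤ d) :
    ∃ S, OddInd (Q d) S ∧ 2 ^ (k + 1) * S.ncard = (2 ^ k - 1) * 2 ^ d := by
  classical
  have ev : Even (d - 2 ^ k) := (Nat.even_sub h).2 (by simp [hd, Nat.even_pow, hk.ne'])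
  obtain ⟨q⟩ : Nonempty (Fin d ≃ (Fin k → ZMod 2) ⊕ Fin (d - 2 ^ k)) :=
    Fintype.card_eq.1 (by simp; omega)
  let g : Fin d → Fin k → ZMod 2 := fun i => Sum.elim id 0 (q i)
  have hg : ∀ s, Odd (univ.filter fun i => g i = s).card := fun s => by
    rw [card_filter, ← q.symm.sum_comp, Fintype.sum_sum_type]
    by_cases c : 0 = s <;> simp [g, c, ev.one_add]
  let φ : (Fin d → ZMod 2) →ₗ[ZMod 2] ZMod 2 × (Fin k → ZMod 2) :=
    Fintype.linearCombination _ fun i => (1, g i)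
  have he : ∀ v i, φ (v + e i) = φ v + (1, g i) := fun v i => by simp [φ]
  have z : ∀ a : ZMod 2, a = 0 ∨ a = 1 := by decide
  have hs : Function.Surjective φ := fun ⟨a, s⟩ => by
    have b : ∀ s, φ (e (q.symm (.inl s))) = (1, s) := fun s => by simpa [g] using he 0 (q.symm (.inl s))
    rcases z a with rfl | rfl
    · exact ⟨_ + e (q.symm (.inl 0)), by rw [map_add, b s, b 0]; simp [CharTwo.add_self_eq_zero]⟩
    · exact ⟨_, b s⟩
  refine ⟨{v | (φ v).1 = 0 ∧ (φ v).2 ≠ 0}, ⟨fun x hx y hy _ a => ?_, fun v _ => ?_⟩, ?_⟩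
  · obtain ⟨i, rfl⟩ := adj.1 a
    simp [he, hx.1] at hy
  · rcases z (φ v).1 with c | c
    · left; ext y; simp only [Set.mem_inter_iff, mem_neighborSet, adj]
      simp only [Set.mem_empty_iff_false, iff_false]
      rintro ⟨⟨i, rfl⟩, hy⟩; simp [he, c] at hy
    · right; rw [nb]
      have := card_filter_add_card_filter_not (s := univ) fun i => g i = (φ v).2
      have t : ∀ i, (φ v).2 + g i = 0 ↔ g i = (φ v).2 := fun i => by
        rw [add_eq_zero_iff_neg_eq, ZModModule.neg_eq_self, eq_comm]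
      simp only [Set.mem_ofPred_eq, he, c, Prod.fst_add, Prod.snd_add, CharTwo.add_self_eq_zero, true_and,
        ne_eq, t]
      obtain ⟨a, ha⟩ := hg (φ v).2; obtain ⟨b, hb⟩ := hd
      simp at this
      exact Nat.odd_iff.2 (by omega)
  · let c := (univ.filter fun v => φ v = 0).card
    have f : ∀ T : Finset _, (univ.filter fun v => φ v ∈ T).card = T.card * c := fun T => by
      rw [card_eq_sum_card_fiberwise (f := φ) (t := T) (by simp [Set.MapsTo]), ← smul_eq_mul, ← sum_const]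
      refine sum_congr rfl fun y hy => ?_
      refine Eq.trans ?_ (AddMonoidHom.card_fiber_eq_of_mem_range φ (hs y) (hs 0))
      congr 1; ext; aesop
    have f1 := f univ
    have f2 := f ({0} ×ˢ {0}ᶜ)
    simp [card_compl, Prod.ext_iff, eq_comm (a := (0 : ZMod 2)), and_comm (a := ¬ _)] at f1 f2
    rw [f1, Set.ncard_eq_toFinset_card']
    simp [f2]; ring

theorem result : (∀ d, Even d → 0 < d → 2 * d * aod (Q d) ≤ (d - 1) * 2 ^ d ∧
      ∀ k, 0 < k → 2 ^ k ≤ d → (2 ^ k - 1) * 2 ^ d ≤ 2 ^ (k + 1) * aod (Q d)) ∧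
    Tendsto (fun n => (aod (Q (2 * n)) : ℝ) / 2 ^ (2 * n)) atTop (𝓝 (1 / 2)) := by
  have H : ∀ d, Even d → 0 < d → 2 * d * aod (Q d) ≤ (d - 1) * 2 ^ d ∧
      ∀ k, 0 < k → 2 ^ k ≤ d → (2 ^ k - 1) * 2 ^ d ≤ 2 ^ (k + 1) * aod (Q d) := fun d hd h0 => by
    have b : BddAbove {n | ∃ S, OddInd (Q d) S ∧ S.ncard = n} :=
      ⟨_, by rintro _ ⟨S, -, rfl⟩; exact S.ncard_le_card⟩
    obtain ⟨S, hS, e⟩ : ∃ S, OddInd (Q d) S ∧ S.ncard = aod (Q d) :=
      Nat.sSup_mem ⟨0, by exact ⟨∅, ⟨by simp, by simp⟩, by simp⟩⟩ b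
    refine ⟨(e ▸ upper hd h0 hS :), fun k hk h => ?_⟩
    obtain ⟨S, hS, e⟩ := lower hd hk h
    exact e ▸ Nat.mul_le_mul_left _ (le_csSup b ⟨S, hS, rfl⟩)
  refine ⟨H, Metric.tendsto_atTop.2 fun ε hε => ?_⟩
  obtain ⟨k, hk⟩ := pow_unbounded_of_one_lt ε⁻¹ (one_lt_two (α := ℝ))
  refine ⟨2 ^ k, fun n hn => ?_⟩
  have p := Nat.two_pow_pos k
  obtain ⟨h1, h2⟩ := H (2 * n) (by simp) (by omega)
  have h2 := h2 (k + 1) (by omega) (by rw [pow_succ]; omega)
  have h1 : 2 * aod (Q (2 * n)) ≤ 2 ^ (2 * n) := by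
    refine Nat.le_of_mul_le_mul_left ?_ (show 0 < 2 * n by omega)
    nlinarith [Nat.mul_le_mul_right (2 ^ (2 * n)) (Nat.sub_le (2 * n) 1)]
  rify [Nat.one_le_two_pow] at h1 h2
  rw [inv_lt_iff_one_lt_mul₀ hε] at hk
  have : (0 : ℝ) < 2 ^ (2 * n) := by positivity
  have : (0 : ℝ) < 2 ^ k := by positivity
  rw [Real.dist_eq, abs_sub_comm, abs_of_nonneg (by rw [sub_nonneg, div_le_iff₀ (by positivity)]; linarith),
    sub_lt_comm, lt_div_iff₀ (by positivity)]
  simp only [pow_succ] at h2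
  refine lt_of_mul_lt_mul_left ?_ this.le
  nlinarith

end Pool.Agent.Results.MP_5d7181_co.Bounds
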